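import Mathlib
import Pool.Agent.K1H70.KG.Stm

/-! KG-Q5: uniqueness of the relative invariant by a contraction (`S_UNQ`). -/

set_option autoImplicit false

namespace Pool.Agent.K1H30.KG

open MvPolynomial Pool.Agent.K1H70.KG

section

variable {R : Type} [CommRing R] {α ρ : Type} {m : ℕ}

theorem mA_act (G Gi : Matrix (Fin m) (Fin m) R) (u : α → R) (z : ρ → R) (x : V α ρ m → R)
    (b : α) : mA (act G Gi u z x) b = u b • (G * mA x b * Gi) := by
  ext a c
  rfl

theorem mv_act (G Gi : Matrix (Fin m) (Fin m) R) (u : α → R) (z : ρ → R) (x : V α ρ m → R)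
    (l : ρ) : mv (act G Gi u z x) l = z l • G.mulVec (mv x l) := by
  ext a
  rfl

theorem wv_nil (x : V α ρ m → R) (l : ρ) : wv x [] l = mv x l := rfl

theorem wv_cons (x : V α ρ m → R) (b : α) (w : List α) (l : ρ) :
    wv x (b :: w) l = (mA x b).mulVec (wv x w l) := rfl

theorem wv_conj {G Gi : Matrix (Fin m) (Fin m) R} (h : G * Gi = 1) (x : V α ρ m → R)
    (w : List α) (l : ρ) :
    wv (act Gi G (fun _ => 1) (fun _ => 1) x) w l = Gi.mulVec (wv x w l) := by
  induction w with
  | nil => rw [wv_nil, wv_nil, mv_act, one_smul]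
  | cons b w ih =>
    rw [wv_cons, wv_cons, ih, mA_act, one_smul, Matrix.mulVec_mulVec, Matrix.mulVec_mulVec,
      Matrix.mul_assoc, h, Matrix.mul_one]

/-- the weight `d l - ω w` of the index `k` -/
def rk (ω : α → ℕ) (d : ρ → ℕ) (e : T ω d ≃ Fin m) (k : Fin m) : ℕ :=
  d (e.symm k).1.2 - ((e.symm k).1.1.map ω).sum

theorem rk_pos (ω : α → ℕ) (d : ρ → ℕ) (e : T ω d ≃ Fin m) (k : Fin m) : 1 ≤ rk ω d e k := by
  have := (e.symm k).2
  unfold rk
  omega

theorem rk_le (ω : α → ℕ) (d : ρ → ℕ) (e : T ω d ≃ Fin m) (k : Fin m) :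
    rk ω d e k ≤ d (e.symm k).1.2 := by
  unfold rk
  omega

theorem rk_add (ω : α → ℕ) (d : ρ → ℕ) (e : T ω d ≃ Fin m) (k : Fin m) :
    rk ω d e k + ((e.symm k).1.1.map ω).sum = d (e.symm k).1.2 := by
  have := (e.symm k).2
  unfold rk
  omega

theorem rk_apply (ω : α → ℕ) (d : ρ → ℕ) (e : T ω d ≃ Fin m) (t : T ω d) :
    rk ω d e (e t) = d t.1.2 - (t.1.1.map ω).sum := by
  unfold rk
  rw [Equiv.symm_apply_apply]

open Classical in
/-- the limit point: the entries `0` and `1` -/
noncomputable def z0 (ω : α → ℕ) (d : ρ → ℕ) (e : T ω d ≃ Fin m) : V α ρ m → R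
  | (a, Sum.inl (b, k)) =>
    if h : ((b :: (e.symm k).1.1).map ω).sum < d (e.symm k).1.2 then
      (if a = e ⟨(b :: (e.symm k).1.1, (e.symm k).1.2), h⟩ then 1 else 0) else 0
  | (a, Sum.inr l) =>
    if h : (([] : List α).map ω).sum < d l then (if a = e ⟨([], l), h⟩ then 1 else 0) else 0

open Classical in
theorem z0_A (ω : α → ℕ) (d : ρ → ℕ) (e : T ω d ≃ Fin m) (a : Fin m) (b : α) (k : Fin m) :
    (z0 ω d e : V α ρ m → R) (a, Sum.inl (b, k)) =
      if h : ((b :: (e.symm k).1.1).map ω).sum < d (e.symm k).1.2 then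
        (if a = e ⟨(b :: (e.symm k).1.1, (e.symm k).1.2), h⟩ then 1 else 0) else 0 := rfl

open Classical in
theorem z0_v (ω : α → ℕ) (d : ρ → ℕ) (e : T ω d ≃ Fin m) (a : Fin m) (l : ρ) :
    (z0 ω d e : V α ρ m → R) (a, Sum.inr l) =
      if h : (([] : List α).map ω).sum < d l then (if a = e ⟨([], l), h⟩ then 1 else 0) else 0 :=
  rfl

theorem mulVec_single_col (A : Matrix (Fin m) (Fin m) R) (k : Fin m) :
    A.mulVec (Pi.single k 1) = fun a => A a k := by
  ext a
  rw [Matrix.mulVec_single_one]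
  rfl

theorem wv_z0 (ω : α → ℕ) (d : ρ → ℕ) (e : T ω d ≃ Fin m) (w : List α) :
    ∀ (l : ρ) (h : (w.map ω).sum < d l),
      wv (z0 ω d e : V α ρ m → R) w l = Pi.single (e ⟨(w, l), h⟩) 1 := by
  classical
  induction w with
  | nil =>
    intro l h
    rw [wv_nil]
    ext a
    change (z0 ω d e : V α ρ m → R) (a, Sum.inr l) = _
    rw [z0_v, dif_pos h, Pi.single_apply]
  | cons b w ih =>
    intro l h
    have h' : (w.map ω).sum < d l := by
      rw [List.map_cons, List.sum_cons] at h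
      omega
    rw [wv_cons, ih l h', mulVec_single_col]
    ext a
    change (z0 ω d e : V α ρ m → R) (a, Sum.inl (b, e ⟨(w, l), h'⟩)) = _
    rw [z0_A]
    have e1 : e.symm (e ⟨(w, l), h'⟩) = ⟨(w, l), h'⟩ := Equiv.symm_apply_apply _ _
    have h2 : ((b :: (e.symm (e ⟨(w, l), h'⟩)).1.1).map ω).sum <
        d (e.symm (e ⟨(w, l), h'⟩)).1.2 := by
      rw [e1]; exact h
    rw [dif_pos h2, Pi.single_apply]
    have e2 : (⟨(b :: (e.symm (e ⟨(w, l), h'⟩)).1.1, (e.symm (e ⟨(w, l), h'⟩)).1.2), h2⟩ : T ω d) =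
        ⟨(b :: w, l), h⟩ := by
      apply Subtype.ext
      simp only [e1]
    rw [e2]

theorem fdet_z0 (ω : α → ℕ) (d : ρ → ℕ) (e : T ω d ≃ Fin m) :
    fdet ω d e (z0 ω d e : V α ρ m → R) = 1 := by
  classical
  unfold fdet
  have : (Matrix.of fun k a : Fin m => wv (z0 ω d e : V α ρ m → R) (e.symm k).1.1
      (e.symm k).1.2 a) = 1 := by
    ext k a
    rw [Matrix.of_apply, wv_z0 ω d e _ _ (e.symm k).2]
    have e1 : (⟨((e.symm k).1.1, (e.symm k).1.2), (e.symm k).2⟩ : T ω d) = e.symm k := rfl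
    rw [e1, Equiv.apply_symm_apply, Pi.single_apply, Matrix.one_apply]
    simp [eq_comm]
  rw [this, Matrix.det_one]

end

section map

variable {R S : Type} [CommRing R] [CommRing S] {α ρ : Type} {m : ℕ}

theorem wv_map (f : R →+* S) (x : V α ρ m → R) (w : List α) (l : ρ) :
    wv (fun v => f (x v)) w l = fun a => f (wv x w l a) := by
  induction w with
  | nil => rfl
  | cons b w ih =>
    rw [wv_cons, wv_cons, ih]
    ext a
    rw [Matrix.mulVec, Matrix.mulVec, dotProduct, dotProduct, map_sum]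
    refine Finset.sum_congr rfl fun c _ => ?_
    rw [map_mul]
    rfl

theorem fdet_map (f : R →+* S) (ω : α → ℕ) (d : ρ → ℕ) (e : T ω d ≃ Fin m) (x : V α ρ m → R) :
    fdet ω d e (fun v => f (x v)) = f (fdet ω d e x) := by
  unfold fdet
  rw [RingHom.map_det]
  congr 1
  ext k a
  rw [Matrix.of_apply, wv_map]
  rfl

end map

section

variable {α ρ : Type} {m : ℕ}

/-- the contraction curve -/
noncomputable def Zc (ω : α → ℕ) (d : ρ → ℕ) (e : T ω d ≃ Fin m) (y : V α ρ m → ℂ) :
    V α ρ m → Polynomial ℂ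
  | (a, Sum.inl (b, k)) =>
    if ((b :: (e.symm k).1.1).map ω).sum < d (e.symm k).1.2 then
      Polynomial.C (y (a, Sum.inl (b, k)))
    else Polynomial.X ^ (rk ω d e a + (ω b - rk ω d e k)) * Polynomial.C (y (a, Sum.inl (b, k)))
  | (a, Sum.inr l) =>
    if 0 < d l then Polynomial.C (y (a, Sum.inr l))
    else Polynomial.X ^ (rk ω d e a) * Polynomial.C (y (a, Sum.inr l))

theorem Zc_A (ω : α → ℕ) (d : ρ → ℕ) (e : T ω d ≃ Fin m) (y : V α ρ m → ℂ) (a : Fin m) (b : α)
    (k : Fin m) : Zc ω d e y (a, Sum.inl (b, k)) =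
      if ((b :: (e.symm k).1.1).map ω).sum < d (e.symm k).1.2 then
        Polynomial.C (y (a, Sum.inl (b, k)))
      else Polynomial.X ^ (rk ω d e a + (ω b - rk ω d e k)) *
        Polynomial.C (y (a, Sum.inl (b, k))) := rfl

theorem Zc_v (ω : α → ℕ) (d : ρ → ℕ) (e : T ω d ≃ Fin m) (y : V α ρ m → ℂ) (a : Fin m) (l : ρ) :
    Zc ω d e y (a, Sum.inr l) =
      if 0 < d l then Polynomial.C (y (a, Sum.inr l))
      else Polynomial.X ^ (rk ω d e a) * Polynomial.C (y (a, Sum.inr l)) := rfl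

theorem entry_A {ω : α → ℕ} {d : ρ → ℕ} {e : T ω d ≃ Fin m} {y : V α ρ m → ℂ}
    (hy : ∀ t : T ω d, wv y t.1.1 t.1.2 = Pi.single (e t) 1) (a : Fin m) (b : α) (k : Fin m)
    (h : ((b :: (e.symm k).1.1).map ω).sum < d (e.symm k).1.2) :
    y (a, Sum.inl (b, k)) =
      if a = e ⟨(b :: (e.symm k).1.1, (e.symm k).1.2), h⟩ then 1 else 0 := by
  classical
  have h1 := hy ⟨(b :: (e.symm k).1.1, (e.symm k).1.2), h⟩
  have h2 := hy (e.symm k)
  rw [Equiv.apply_symm_apply] at h2
  rw [wv_cons, h2, mulVec_single_col] at h1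
  have h3 := congrFun h1 a
  rw [Pi.single_apply] at h3
  exact h3

theorem entry_v {ω : α → ℕ} {d : ρ → ℕ} {e : T ω d ≃ Fin m} {y : V α ρ m → ℂ}
    (hy : ∀ t : T ω d, wv y t.1.1 t.1.2 = Pi.single (e t) 1) (a : Fin m) (l : ρ)
    (h : (([] : List α).map ω).sum < d l) :
    y (a, Sum.inr l) = if a = e ⟨([], l), h⟩ then 1 else 0 := by
  classical
  have h1 := hy ⟨([], l), h⟩
  rw [wv_nil] at h1
  have h3 := congrFun h1 a
  rw [Pi.single_apply] at h3
  exact h3

theorem Zc_zero {ω : α → ℕ} {d : ρ → ℕ} {e : T ω d ≃ Fin m} {y : V α ρ m → ℂ}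
    (hy : ∀ t : T ω d, wv y t.1.1 t.1.2 = Pi.single (e t) 1) (v : V α ρ m) :
    (Zc ω d e y v).eval 0 = z0 ω d e v := by
  classical
  obtain ⟨a, ⟨b, k⟩ | l⟩ := v
  · rw [Zc_A, z0_A]
    split_ifs with h h1
    · rw [Polynomial.eval_C, entry_A hy a b k h, if_pos h1]
    · rw [Polynomial.eval_C, entry_A hy a b k h, if_neg h1]
    · have := rk_pos ω d e a
      rw [Polynomial.eval_mul, Polynomial.eval_pow, Polynomial.eval_X, zero_pow (by omega),
        zero_mul]
  · rw [Zc_v, z0_v]
    by_cases h : 0 < d l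
    · have h' : (([] : List α).map ω).sum < d l := by simpa using h
      rw [if_pos h, dif_pos h', Polynomial.eval_C, entry_v hy a l h']
    · have h' : ¬ (([] : List α).map ω).sum < d l := by simpa using h
      have := rk_pos ω d e a
      rw [if_neg h, dif_neg h', Polynomial.eval_mul, Polynomial.eval_pow, Polynomial.eval_X,
        zero_pow (by omega), zero_mul]

theorem Zc_ne {ω : α → ℕ} {d : ρ → ℕ} {e : T ω d ≃ Fin m} {y : V α ρ m → ℂ}
    (hy : ∀ t : T ω d, wv y t.1.1 t.1.2 = Pi.single (e t) 1) {N : ℕ} (hN : ∀ l, d l ≤ N)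
    {c : ℂ} (hc : c ≠ 0) :
    act (Matrix.diagonal fun k => (c ^ (N - rk ω d e k))⁻¹)
      (Matrix.diagonal fun k => c ^ (N - rk ω d e k)) (fun b => c ^ ω b)
      (fun l => c ^ (N - d l)) y = fun v => (Zc ω d e y v).eval c := by
  classical
  have hr : ∀ k, rk ω d e k ≤ N := fun k => (rk_le ω d e k).trans (hN _)
  ext v
  obtain ⟨a, ⟨b, k⟩ | l⟩ := v
  · change c ^ ω b * ((Matrix.diagonal fun k => (c ^ (N - rk ω d e k))⁻¹) * mA y b *
      (Matrix.diagonal fun k => c ^ (N - rk ω d e k))) a k = _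
    rw [Matrix.mul_diagonal, Matrix.diagonal_mul]
    change c ^ ω b * ((c ^ (N - rk ω d e a))⁻¹ * y (a, Sum.inl (b, k)) * c ^ (N - rk ω d e k)) = _
    have hsum : ((b :: (e.symm k).1.1).map ω).sum = ω b + ((e.symm k).1.1.map ω).sum := by
      rw [List.map_cons, List.sum_cons]
    have hk := rk_add ω d e k
    have hka := hr a
    have hkk := hr k
    have hpa : c ^ (N - rk ω d e a) ≠ 0 := pow_ne_zero _ hc
    rw [Zc_A]
    split_ifs with h
    · rw [Polynomial.eval_C, entry_A hy a b k h]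
      split_ifs with h1
      · have h2 : rk ω d e a = d (e.symm k).1.2 - ((b :: (e.symm k).1.1).map ω).sum := by
          rw [h1, rk_apply]
        rw [hsum] at h2 h
        have h3 : ω b + (N - rk ω d e k) = N - rk ω d e a := by omega
        rw [mul_one]
        calc c ^ ω b * ((c ^ (N - rk ω d e a))⁻¹ * c ^ (N - rk ω d e k)) =
            c ^ (ω b + (N - rk ω d e k)) * (c ^ (N - rk ω d e a))⁻¹ := by rw [pow_add]; ring
          _ = 1 := by rw [h3, mul_inv_cancel₀ hpa]
      · ring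
    · rw [Polynomial.eval_mul, Polynomial.eval_pow, Polynomial.eval_X, Polynomial.eval_C]
      rw [hsum] at h
      have h3 : ω b + (N - rk ω d e k) = (rk ω d e a + (ω b - rk ω d e k)) + (N - rk ω d e a) := by
        omega
      calc c ^ ω b * ((c ^ (N - rk ω d e a))⁻¹ * y (a, Sum.inl (b, k)) * c ^ (N - rk ω d e k)) =
          c ^ (ω b + (N - rk ω d e k)) * (c ^ (N - rk ω d e a))⁻¹ * y (a, Sum.inl (b, k)) := by
            rw [pow_add]; ring
        _ = c ^ (rk ω d e a + (ω b - rk ω d e k)) * y (a, Sum.inl (b, k)) := by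
            rw [h3, pow_add, mul_assoc (c ^ (rk ω d e a + (ω b - rk ω d e k))), mul_inv_cancel₀ hpa,
              mul_one]
  · change c ^ (N - d l) * (Matrix.diagonal fun k => (c ^ (N - rk ω d e k))⁻¹).mulVec (mv y l) a = _
    rw [Matrix.mulVec_diagonal]
    change c ^ (N - d l) * ((c ^ (N - rk ω d e a))⁻¹ * y (a, Sum.inr l)) = _
    have hka := hr a
    have hpa : c ^ (N - rk ω d e a) ≠ 0 := pow_ne_zero _ hc
    rw [Zc_v]
    split_ifs with h
    · have h' : (([] : List α).map ω).sum < d l := by simpa using h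
      rw [Polynomial.eval_C, entry_v hy a l h']
      split_ifs with h1
      · have h2 : rk ω d e a = d l := by
          rw [h1, rk_apply]
          simp
        rw [mul_one, h2]
        rw [h2] at hpa
        exact mul_inv_cancel₀ hpa
      · ring
    · have h0 : d l = 0 := by omega
      rw [Polynomial.eval_mul, Polynomial.eval_pow, Polynomial.eval_X, Polynomial.eval_C, h0,
        Nat.sub_zero]
      have h3 : N = rk ω d e a + (N - rk ω d e a) := by omega
      calc c ^ N * ((c ^ (N - rk ω d e a))⁻¹ * y (a, Sum.inr l)) =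
          c ^ (rk ω d e a + (N - rk ω d e a)) * (c ^ (N - rk ω d e a))⁻¹ * y (a, Sum.inr l) := by
            rw [← h3]; ring
        _ = c ^ rk ω d e a * y (a, Sum.inr l) := by
            rw [pow_add, mul_assoc (c ^ rk ω d e a), mul_inv_cancel₀ hpa, mul_one]

/-- **Q5 (uniqueness of the relative invariant).** -/
theorem t_UNQ0 : S_UNQ := by
  classical
  intro α ρ _ _ m ω d e n h hh
  obtain ⟨N, hN⟩ : ∃ N : ℕ, ∀ l, d l ≤ N :=
    ⟨∑ l, d l, fun l => Finset.single_le_sum (fun _ _ => Nat.zero_le _) (Finset.mem_univ l)⟩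
  have key1 : ∀ y : V α ρ m → ℂ, (∀ t : T ω d, wv y t.1.1 t.1.2 = Pi.single (e t) 1) →
      eval y h = eval (z0 ω d e) h := by
    intro y hy
    obtain ⟨q, hq⟩ : ∃ q : Polynomial ℂ, q = aeval (Zc ω d e y) h := ⟨_, rfl⟩
    have hqe : ∀ c : ℂ, q.eval c = eval (fun v => (Zc ω d e y v).eval c) h := by
      intro c
      rw [hq]
      have h1 := MvPolynomial.eval₂_comp_left (Polynomial.evalRingHom c)
        (algebraMap ℂ (Polynomial ℂ)) (Zc ω d e y) h
      rw [MvPolynomial.aeval_def]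
      change (Polynomial.evalRingHom c) _ = _
      rw [h1]
      have e1 : (Polynomial.evalRingHom c).comp (algebraMap ℂ (Polynomial ℂ)) = RingHom.id ℂ := by
        ext x
        simp
      rw [e1, MvPolynomial.eval₂_id]
      rfl
    have hc : ∀ c : ℂ, c ≠ 0 → q.eval c = eval y h := by
      intro c hc
      rw [hqe, ← Zc_ne hy hN hc, hh]
      · have hchi : (Matrix.diagonal fun k => (c ^ (N - rk ω d e k))⁻¹).det *
            chi ω d e (fun b => c ^ ω b) (fun l => c ^ (N - d l)) = 1 := by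
          unfold chi
          rw [Matrix.det_diagonal, ← Finset.prod_mul_distrib]
          refine Finset.prod_eq_one fun k _ => ?_
          have h1 : ((e.symm k).1.1.map fun b => c ^ ω b).prod =
              c ^ ((e.symm k).1.1.map ω).sum := by
            induction (e.symm k).1.1 with
            | nil => simp
            | cons b w ih =>
              rw [List.map_cons, List.prod_cons, List.map_cons, List.sum_cons, pow_add, ih]
          rw [h1, ← pow_add]
          have h2 := rk_add ω d e k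
          have h3 := hN (e.symm k).1.2
          have h4 : ((e.symm k).1.1.map ω).sum + (N - d (e.symm k).1.2) = N - rk ω d e k := by
            omega
          rw [h4, inv_mul_cancel₀ (pow_ne_zero _ hc)]
        rw [hchi, one_pow, one_mul]
      · rw [Matrix.diagonal_mul_diagonal]
        have : (fun k => c ^ (N - rk ω d e k) * (c ^ (N - rk ω d e k))⁻¹) = fun _ : Fin m => (1 : ℂ) := by
          ext k
          exact mul_inv_cancel₀ (pow_ne_zero _ hc)
        rw [this, Matrix.diagonal_one]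
      · intro b
        exact pow_ne_zero _ hc
      · intro l
        exact pow_ne_zero _ hc
    have hq2 : q = Polynomial.C (eval y h) := by
      refine Polynomial.eq_of_infinite_eval_eq _ _ ?_
      refine (Set.Infinite.mono (s := {c : ℂ | c ≠ 0}) ?_ ?_)
      · intro c hc'
        simp only [Polynomial.eval_C]
        exact hc c hc'
      · have : ({c : ℂ | c ≠ 0}) = ({0} : Set ℂ)ᶜ := by ext; simp
        rw [this]
        exact (Set.finite_singleton (0 : ℂ)).infinite_compl
    have h0 := hqe 0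
    rw [hq2, Polynomial.eval_C] at h0
    rw [h0]
    congr 1
    congr 1
    ext v
    exact Zc_zero hy v
  have hev : ∀ x : V α ρ m → ℂ, eval x (fdet ω d e X) = fdet ω d e x := by
    intro x
    have h1 := fdet_map (eval x) ω d e (X : V α ρ m → MvPolynomial (V α ρ m) ℂ)
    rw [← h1]
    congr 1
    ext v
    rw [eval_X]
  have key2 : ∀ x : V α ρ m → ℂ, fdet ω d e x ≠ 0 →
      eval x h = (fdet ω d e x) ^ n * eval (z0 ω d e) h := by
    intro x hx
    obtain ⟨G, hG⟩ : ∃ G : Matrix (Fin m) (Fin m) ℂ, G = (Matrix.of fun k a : Fin m =>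
      wv x (e.symm k).1.1 (e.symm k).1.2 a).transpose := ⟨_, rfl⟩
    have hGdet : G.det = fdet ω d e x := by
      rw [hG, Matrix.det_transpose]
      rfl
    have hu : IsUnit G.det := by rw [hGdet]; exact isUnit_iff_ne_zero.2 hx
    have hGi : G * G⁻¹ = 1 := Matrix.mul_nonsing_inv _ hu
    have hGi' : G⁻¹ * G = 1 := Matrix.nonsing_inv_mul _ hu
    have hy : ∀ t : T ω d, wv (act G⁻¹ G (fun _ => 1) (fun _ => 1) x) t.1.1 t.1.2 =
        Pi.single (e t) 1 := by
      intro t
      rw [wv_conj hGi]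
      have h1 : wv x t.1.1 t.1.2 = G.mulVec (Pi.single (e t) 1) := by
        rw [mulVec_single_col]
        ext a
        rw [hG, Matrix.transpose_apply, Matrix.of_apply, Equiv.symm_apply_apply]
      rw [h1, Matrix.mulVec_mulVec, hGi', Matrix.one_mulVec]
    have h1 := key1 _ hy
    rw [hh G⁻¹ G (fun _ => 1) (fun _ => 1) x hGi (fun _ => one_ne_zero) (fun _ => one_ne_zero)] at h1
    have hchi : chi ω d e (fun _ => (1 : ℂ)) (fun _ => 1) = 1 := by
      unfold chi
      refine Finset.prod_eq_one fun k _ => ?_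
      rw [mul_one]
      refine List.prod_eq_one fun u hu => ?_
      obtain ⟨_, _, rfl⟩ := List.mem_map.1 hu
      rfl
    rw [hchi, mul_one] at h1
    have h2 : G⁻¹.det * fdet ω d e x = 1 := by
      rw [← hGdet, ← Matrix.det_mul, hGi', Matrix.det_one]
    rw [← h1, ← mul_assoc, ← mul_pow, mul_comm (fdet ω d e x), h2, one_pow, one_mul]
  refine ⟨eval (z0 ω d e) h, ?_⟩
  have hne : fdet ω d e (X : V α ρ m → MvPolynomial (V α ρ m) ℂ) ≠ 0 := by
    intro h0
    have h1 := hev (z0 ω d e)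
    rw [h0, map_zero, fdet_z0] at h1
    exact zero_ne_one h1
  have hprod : fdet ω d e (X : V α ρ m → MvPolynomial (V α ρ m) ℂ) *
      (h - C (eval (z0 ω d e) h) * (fdet ω d e X) ^ n) = 0 := by
    apply MvPolynomial.funext
    intro x
    rw [map_mul, map_sub, map_mul, map_pow, eval_C, hev, map_zero]
    by_cases hx : fdet ω d e x = 0
    · rw [hx, zero_mul]
    · rw [key2 x hx]
      ring
  rcases mul_eq_zero.1 hprod with h1 | h1
  · exact absurd h1 hne
  · exact sub_eq_zero.1 h1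

theorem t_UNQ (_hA : S_ACT) : S_UNQ := t_UNQ0

end

end Pool.Agent.K1H30.KG
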